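import Pool.Agent.P.MP_a2beea_nt.Defs

/-!
Conjugation averages, counting CM types, and the averaged class function.
-/

namespace Pool.Agent.P.MP_a2beea_nt

open Classical Finset

variable {G : Type} [Group G] [Fintype G]

/-- Average over conjugates. -/
noncomputable def Av : (G → ℚ) →ₗ[ℚ] (G → ℚ) where
  toFun f g := (∑ η, f (η⁻¹ * g * η)) / Fintype.card G
  map_add' f f' := by ext g; simp [sum_add_distrib, add_div]
  map_smul' a f := by ext g; simp [← mul_sum, mul_div_assoc]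

lemma Av_apply (f : G → ℚ) (g : G) : Av f g = (∑ η, f (η⁻¹ * g * η)) / Fintype.card G := rfl

lemma a0_eq (H : Subgroup G) (ψ : G ⧸ H) (Φ : Set (G ⧸ H)) :
    a0 H ψ Φ = Av fun g => if g • ψ ∈ Φ then 1 else 0 := by
  ext g
  rw [a0, Av_apply, Nat.card_eq_fintype_card, Nat.card_eq_fintype_card, Fintype.card_subtype,
    sum_boole]

lemma Av_conj (f : G → ℚ) (g t : G) : Av f (t⁻¹ * g * t) = Av f g := by
  rw [Av_apply, Av_apply, ← Equiv.sum_comp (Equiv.mulLeft t) fun η => f (η⁻¹ * g * η)]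
  simp [mul_assoc]

lemma Av_conj' (f : G → ℚ) (t : G) : (Av fun g => f (t⁻¹ * g * t)) = Av f := by
  ext g
  rw [Av_apply, Av_apply, ← Equiv.sum_comp (Equiv.mulRight t) fun η => f (η⁻¹ * g * η)]
  simp [mul_assoc]

lemma Av_class {f : G → ℚ} (hf : ∀ g t, f (t⁻¹ * g * t) = f g) : Av f = f := by
  ext g
  rw [Av_apply]
  simp [hf]

lemma Av_one : Av (1 : G → ℚ) = 1 := Av_class fun _ _ => rfl

lemma Av_center {c : G} (hc : c ∈ Subgroup.center G) (f : G → ℚ) (g : G) :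
    Av (fun g => f (c * g)) g = Av f (c * g) := by
  rw [Av_apply, Av_apply]
  congr 2
  ext η
  rw [← mul_assoc, ← mul_assoc, ← Subgroup.mem_center_iff.1 hc η⁻¹, mul_assoc η⁻¹ c g]

section Types

variable {c : G} {H : Subgroup G}

/-- The sign of `x` with respect to `Φ`. -/
noncomputable def sgn (Φ : Set (G ⧸ H)) (x : G ⧸ H) : ℚ := if x ∈ Φ then 1 else -1

/-- Exchange `z` and `c • z`. -/
def flip (c : G) (z : G ⧸ H) (Φ : Set (G ⧸ H)) : Set (G ⧸ H) :=
  {x | (x ∈ Φ) ↔ ¬ (x = z ∨ x = c • z)}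

omit [Fintype G] in
lemma flip_flip (z : G ⧸ H) (Φ : Set (G ⧸ H)) : flip c z (flip c z Φ) = Φ := by
  ext x
  simp only [flip, Set.mem_ofPred_eq]
  tauto

omit [Fintype G] in
lemma IsCMType.flip (hc : c * c = 1) {Φ : Set (G ⧸ H)} (h : IsCMType c H Φ) (z : G ⧸ H) :
    IsCMType c H (flip c z Φ) := by
  intro x
  have e : (c • x = z ∨ c • x = c • z) ↔ (x = z ∨ x = c • z) := by
    rw [smul_left_cancel_iff, or_comm]
    refine or_congr Iff.rfl ⟨fun h => ?_, fun h => ?_⟩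
    · rw [← h, smul_smul, hc, one_smul]
    · rw [h, smul_smul, hc, one_smul]
  have := h x
  simp only [MP_a2beea_nt.flip, Set.mem_ofPred_eq, e]
  tauto

omit [Fintype G] in
lemma sgn_flip (z x : G ⧸ H) (Φ : Set (G ⧸ H)) :
    sgn (flip c z Φ) x = if x = z ∨ x = c • z then -sgn Φ x else sgn Φ x := by
  by_cases h1 : x ∈ Φ <;> by_cases h2 : (x = z ∨ x = c • z) <;>
    simp only [sgn, flip, Set.mem_ofPred_eq, h1, h2] <;> simp

omit [Fintype G] in
lemma sgn_c {Φ : Set (G ⧸ H)} (h : IsCMType c H Φ) (x : G ⧸ H) : sgn Φ (c • x) = -sgn Φ x := by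
  have := h x
  by_cases h1 : x ∈ Φ <;> by_cases h2 : c • x ∈ Φ <;> simp_all [sgn]

omit [Fintype G] in
lemma sgn_sq (Φ : Set (G ⧸ H)) (x : G ⧸ H) : sgn Φ x * sgn Φ x = 1 := by
  by_cases h1 : x ∈ Φ <;> simp [sgn, h1]

omit [Fintype G] in
lemma ind_eq (Φ : Set (G ⧸ H)) (x : G ⧸ H) :
    (if x ∈ Φ then 1 else 0 : ℚ) = (1 + sgn Φ x) / 2 := by
  by_cases h1 : x ∈ Φ <;> simp [sgn, h1]

omit [Fintype G] in
lemma smul_ne (hc : c ∈ Subgroup.center G) (hH : c ∉ H) (x : G ⧸ H) : c • x ≠ x := by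
  obtain ⟨t, rfl⟩ := QuotientGroup.mk_surjective x
  intro h
  rw [MulAction.Quotient.smul_mk, eq_comm, QuotientGroup.eq, smul_eq_mul, ← mul_assoc,
    Subgroup.mem_center_iff.1 hc t⁻¹, inv_mul_cancel_right] at h
  exact hH h

lemma exists_type (hc : c ∈ Subgroup.center G) (hc2 : c * c = 1) (hH : c ∉ H) :
    ∃ Φ, IsCMType c H Φ := by
  let e := Fintype.equivFin (G ⧸ H)
  refine ⟨{x | e x < e (c • x)}, fun x => ?_⟩
  have h1 : e (c • x) ≠ e x := fun h => smul_ne hc hH x (e.injective h)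
  simp only [Set.mem_ofPred_eq, smul_smul, hc2, one_smul]
  omega

lemma sum_odd (hc2 : c * c = 1) (z : G ⧸ H) (F : Set (G ⧸ H) → ℚ)
    (hF : ∀ Φ, F (flip c z Φ) = -F Φ) : ∑ Φ with IsCMType c H Φ, F Φ = 0 := by
  have h0 : ∀ Φ ∈ univ.filter (IsCMType c H), flip c z Φ ∈ univ.filter (IsCMType c H) :=
    fun Φ h => mem_filter.2 ⟨mem_univ _, IsCMType.flip hc2 (mem_filter.1 h).2 z⟩
  have h : ∑ Φ with IsCMType c H Φ, F Φ = ∑ Φ with IsCMType c H Φ, F (flip c z Φ) :=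
    sum_nbij' (flip c z) (flip c z) h0 h0 (fun Φ _ => flip_flip z Φ) (fun Φ _ => flip_flip z Φ)
      fun Φ _ => by rw [flip_flip]
  simp only [hF, sum_neg_distrib] at h
  linarith

lemma count_pair (hc : c ∈ Subgroup.center G) (hc2 : c * c = 1) (hH : c ∉ H) (ψ y : G ⧸ H) :
    ∑ Φ with IsCMType c H Φ, (if ψ ∈ Φ then 1 else 0 : ℚ) * (if y ∈ Φ then 1 else 0) =
      (#{Φ | IsCMType c H Φ} : ℚ) / 4 *
        (1 + (if y = ψ then 1 else 0) - if y = c • ψ then 1 else 0) := by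
  have h1 : ∀ z, ∑ Φ with IsCMType c H Φ, sgn Φ z = 0 := fun z =>
    sum_odd hc2 z _ fun Φ => by rw [sgn_flip, if_pos (Or.inl rfl)]
  have h2 : ∑ Φ with IsCMType c H Φ, sgn Φ ψ * sgn Φ y = (#{Φ | IsCMType c H Φ} : ℚ) *
      ((if y = ψ then 1 else 0) - if y = c • ψ then 1 else 0) := by
    by_cases a1 : y = ψ
    · subst a1
      simp [sgn_sq, (smul_ne hc hH y).symm]
    by_cases a2 : y = c • ψ
    · rw [if_neg a1, if_pos a2, a2, sum_congr rfl fun Φ hΦ => by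
        rw [sgn_c (by simpa using hΦ), mul_neg, sgn_sq]]
      simp
    · rw [if_neg a1, if_neg a2, sub_zero, mul_zero]
      refine sum_odd hc2 ψ _ fun Φ => ?_
      rw [sgn_flip, sgn_flip, if_pos (Or.inl rfl), if_neg (by tauto), neg_mul]
  have e : ∀ Φ : Set (G ⧸ H), (if ψ ∈ Φ then 1 else 0 : ℚ) * (if y ∈ Φ then 1 else 0) =
      (1 + sgn Φ ψ + sgn Φ y + sgn Φ ψ * sgn Φ y) / 4 := fun Φ => by
    rw [ind_eq, ind_eq]; ring
  simp only [e]
  rw [← sum_div, sum_add_distrib, sum_add_distrib, sum_add_distrib, h1, h1, h2]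
  simp only [sum_const, nsmul_eq_mul]
  ring

/-- The indicator function of a subgroup. -/
noncomputable def ind (H : Subgroup G) (g : G) : ℚ := if g ∈ H then 1 else 0

lemma averaged_eq (hc : c ∈ Subgroup.center G) (hc2 : c * c = 1) (hH : c ∉ H) :
    averaged c H = ((Fintype.card (G ⧸ H) : ℚ) * (#{Φ | IsCMType c H Φ} : ℚ) / 4) •
      (1 + Av (ind H) - Av fun g => ind H (c * g)) := by
  have e1 : averaged c H = ∑ Φ with IsCMType c H Φ, ∑ ψ, (if ψ ∈ Φ then 1 else 0 : ℚ) •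
      Av fun g => if g • ψ ∈ Φ then 1 else 0 := by
    rw [averaged, finsum_mem_eq_finite_toFinset_sum _ (Set.toFinite _)]
    refine sum_congr (by ext; simp) fun Φ _ => ?_
    rw [finsum_mem_eq_finite_toFinset_sum _ (Set.toFinite _)]
    simp only [ite_smul, one_smul, zero_smul, ← sum_filter, a0_eq]
    exact sum_congr (by ext; rw [Set.Finite.mem_toFinset, mem_filter]; simp) fun _ _ => rfl
  rw [e1, sum_comm, mul_div_assoc, mul_smul, ← card_univ, Nat.cast_smul_eq_nsmul, ← sum_const]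
  refine sum_congr rfl fun ψ _ => ?_
  obtain ⟨t, rfl⟩ := QuotientGroup.mk_surjective ψ
  rw [← Av_conj' (ind H) t, ← Av_conj' (fun g => ind H (c * g)) t, ← Av_one, ← map_add, ← map_sub,
    ← map_smul]
  simp only [← map_smul, ← map_sum]
  congr 1
  ext g
  have := count_pair hc hc2 hH (t : G ⧸ H) (g • (t : G ⧸ H))
  simp only [Finset.sum_apply, Pi.smul_apply, smul_eq_mul, Pi.sub_apply, Pi.add_apply, Pi.one_apply, this,
    ind]
  have b1 : g • (t : G ⧸ H) = t ↔ t⁻¹ * g * t ∈ H := by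
    rw [MulAction.Quotient.smul_mk, eq_comm, QuotientGroup.eq, smul_eq_mul, mul_assoc]
  have b2 : g • (t : G ⧸ H) = c • (t : G ⧸ H) ↔ c * (t⁻¹ * g * t) ∈ H := by
    rw [MulAction.Quotient.smul_mk, MulAction.Quotient.smul_mk, eq_comm, QuotientGroup.eq,
      smul_eq_mul, smul_eq_mul, mul_inv_rev, inv_eq_of_mul_eq_one_left hc2,
      Subgroup.mem_center_iff.1 hc t⁻¹]
    simp only [mul_assoc]
  simp only [b1, b2]

end Types

end Pool.Agent.P.MP_a2beea_nt
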