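import Mathlib

/-!
Class functions attached to CM types, in group-theoretic form.
-/

namespace Pool.Agent.P.MP_a2beea_nt

variable {G : Type} [Group G]

/-- `Φ` contains exactly one element of each pair `x`, `c • x`. -/
def IsCMType (c : G) (H : Subgroup G) (Φ : Set (G ⧸ H)) : Prop :=
  ∀ x, x ∈ Φ ↔ c • x ∉ Φ

/-- The class function `g ↦ #{η : η⁻¹ g η ψ ∈ Φ} / #G`. -/
noncomputable def a0 (H : Subgroup G) (ψ : G ⧸ H) (Φ : Set (G ⧸ H)) (g : G) : ℚ :=
  (Nat.card {η : G // (η⁻¹ * g * η) • ψ ∈ Φ} : ℚ) / Nat.card G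

/-- The sum of `a0 H ψ Φ` over all CM types `Φ` and all `ψ ∈ Φ`. -/
noncomputable def averaged (c : G) (H : Subgroup G) : G → ℚ :=
  ∑ᶠ Φ ∈ {Φ | IsCMType c H Φ}, ∑ᶠ ψ ∈ Φ, a0 H ψ Φ

/-- The average of `f` over the coset of `g` modulo the commutator subgroup. -/
noncomputable def abPart (f : G → ℚ) (g : G) : ℚ :=
  (∑ᶠ x ∈ commutator G, f (g * x)) / Nat.card (commutator G)

/-- The constant function one, the averaged functions of all subgroups not containing `c`, and
the functions of all CM types on abelian quotients. -/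
def known (c : G) : Set (G → ℚ) :=
  {1} ∪ {f | ∃ H : Subgroup G, c ∉ H ∧ f = averaged c H} ∪
    {f | ∃ (H : Subgroup G) (ψ : G ⧸ H) (Φ : Set (G ⧸ H)),
      commutator G ≤ H ∧ IsCMType c H Φ ∧ f = a0 H ψ Φ}

end Pool.Agent.P.MP_a2beea_nt
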