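import Mathlib

/-!
Colmez's class functions attached to CM types of subfields of a Galois CM field.
-/

namespace Pool.Agent.P.MP_a2beea_nt.F

open NumberField

variable {K : Type} [Field K] [NumberField K]

/-- The action of an automorphism of `K` on the embeddings of `E` into `K`. -/
def act {E : IntermediateField ℚ K} (g : K ≃ₐ[ℚ] K) (ψ : E →ₐ[ℚ] K) : E →ₐ[ℚ] K :=
  g.toAlgHom.comp ψ

/-- `Φ` contains exactly one embedding of each complex conjugate pair. -/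
def IsCMType [IsCMField K] (E : IntermediateField ℚ K) (Φ : Set (E →ₐ[ℚ] K)) : Prop :=
  ∀ ψ, ψ ∈ Φ ↔ act ((IsCMField.complexConj K).restrictScalars ℚ) ψ ∉ Φ

/-- Colmez's class function `g ↦ #{η : η⁻¹ g η ψ ∈ Φ} / #Gal(K/ℚ)`. -/
noncomputable def a0 (E : IntermediateField ℚ K) (ψ : E →ₐ[ℚ] K) (Φ : Set (E →ₐ[ℚ] K))
    (g : K ≃ₐ[ℚ] K) : ℚ :=
  (Nat.card {η : K ≃ₐ[ℚ] K // act (η⁻¹ * g * η) ψ ∈ Φ} : ℚ) / Nat.card (K ≃ₐ[ℚ] K)

/-- The sum of `a0 E ψ Φ` over all CM types `Φ` of `E` and all `ψ ∈ Φ`. -/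
noncomputable def averaged [IsCMField K] (E : IntermediateField ℚ K) : (K ≃ₐ[ℚ] K) → ℚ :=
  ∑ᶠ Φ ∈ {Φ | IsCMType E Φ}, ∑ᶠ ψ ∈ Φ, a0 E ψ Φ

/-- The average of `f` over the coset of `g` modulo the commutator subgroup. -/
noncomputable def abPart (f : (K ≃ₐ[ℚ] K) → ℚ) (g : K ≃ₐ[ℚ] K) : ℚ :=
  (∑ᶠ x ∈ commutator (K ≃ₐ[ℚ] K), f (g * x)) / Nat.card (commutator (K ≃ₐ[ℚ] K))

/-- The constant function one, the averaged functions of the CM subfields of `K`, and the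
functions of all CM types of the subfields of `K` that are abelian over `ℚ`. -/
def known (K : Type) [Field K] [NumberField K] [IsCMField K] : Set ((K ≃ₐ[ℚ] K) → ℚ) :=
  {1} ∪ {f | ∃ E : IntermediateField ℚ K, IsCMField E ∧ f = averaged E} ∪
    {f | ∃ (E : IntermediateField ℚ K) (ψ : E →ₐ[ℚ] K) (Φ : Set (E →ₐ[ℚ] K)),
      IsAbelianGalois ℚ E ∧ IsCMType E Φ ∧ f = a0 E ψ Φ}

end Pool.Agent.P.MP_a2beea_nt.F
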