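import Pool.Agent.P.MP_a2beea_nt.Main
import Pool.Agent.P.MP_a2beea_nt.FDefs

/-!
The dictionary between subfields and subgroups.
-/

namespace Pool.Agent.P.MP_a2beea_nt.F

open NumberField IntermediateField

variable {K : Type} [Field K] [NumberField K]

/-- Complex conjugation as an automorphism over the rationals. -/
noncomputable abbrev cc (K : Type) [Field K] [NumberField K] [IsCMField K] : K ≃ₐ[ℚ] K :=
  (IsCMField.complexConj K).restrictScalars ℚ

lemma cc_sq [IsCMField K] : cc K * cc K = 1 := by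
  ext x
  exact IsCMField.complexConj_apply_apply K x

lemma cc_center [IsCMField K] : cc K ∈ Subgroup.center (K ≃ₐ[ℚ] K) := by
  refine Subgroup.mem_center_iff.2 fun g => ?_
  ext x
  let φ : K →+* ℂ := Classical.choice inferInstance
  exact φ.injective ((IsCMField.complexEmbedding_complexConj K (φ.comp g.toRingEquiv.toRingHom)
    x).trans (IsCMField.complexEmbedding_complexConj K φ (g x)).symm)

lemma exists_equiv [IsGalois ℚ K] (E : IntermediateField ℚ K) :
    ∃ e : (K ≃ₐ[ℚ] K) ⧸ E.fixingSubgroup ≃ (E →ₐ[ℚ] K), ∀ g x, e (g • x) = act g (e x) := by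
  have h : ∀ a b : K ≃ₐ[ℚ] K, act a E.val = act b E.val ↔ a⁻¹ * b ∈ E.fixingSubgroup := by
    intro a b
    rw [IntermediateField.mem_fixingSubgroup_iff, AlgHom.ext_iff]
    refine ⟨fun h x hx => ?_, fun h x => ?_⟩
    · exact (AlgEquiv.symm_apply_eq a).2 (h ⟨x, hx⟩).symm
    · exact ((AlgEquiv.symm_apply_eq a).1 (h x x.2)).symm
  let f : (K ≃ₐ[ℚ] K) ⧸ E.fixingSubgroup → (E →ₐ[ℚ] K) :=
    Quotient.lift (fun a => act a E.val) fun a b hab =>
      (h a b).2 (QuotientGroup.leftRel_apply.1 hab)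
  refine ⟨Equiv.ofBijective f ⟨fun x y => ?_, fun ψ => ?_⟩, fun g x => ?_⟩
  · obtain ⟨a, rfl⟩ := QuotientGroup.mk_surjective x
    obtain ⟨b, rfl⟩ := QuotientGroup.mk_surjective y
    exact fun e => QuotientGroup.eq.2 ((h a b).1 e)
  · refine ⟨(AlgEquiv.ofBijective (ψ.liftNormal K) (AlgHom.normal_bijective ℚ K K _) :
      K ≃ₐ[ℚ] K), ?_⟩
    ext x
    exact ψ.liftNormal_commutes K x
  · obtain ⟨a, rfl⟩ := QuotientGroup.mk_surjective x
    rfl

lemma isCM_iff [IsCMField K] (E : IntermediateField ℚ K) (hE : ∀ x ∈ E, cc K x ∈ E) :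
    IsCMField E ↔ cc K ∉ E.fixingSubgroup := by
  have key : ∀ (φ : E →+* ℂ) (x : E), φ ⟨cc K x, hE x x.2⟩ = star (φ x) := by
    intro φ x
    rw [← ComplexEmbedding.lift_algebraMap_apply K φ, ← ComplexEmbedding.lift_algebraMap_apply K φ]
    exact IsCMField.complexEmbedding_complexConj K _ x
  constructor
  · intro h hc
    let φ : E →+* ℂ := Classical.choice inferInstance
    refine IsTotallyComplex.complexEmbedding_not_isReal φ (RingHom.ext fun x => ?_)
    rw [RingHom.star_apply, ← key]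
    exact congrArg φ (Subtype.ext ((IntermediateField.mem_fixingSubgroup_iff _ _).1 hc x x.2))
  · intro hc
    let s : E →ₐ[ℚ] E := (act (cc K) E.val).codRestrict E.toSubalgebra fun x => hE x x.2
    have hs : s.comp s = AlgHom.id ℚ E := by
      ext x
      exact IsCMField.complexConj_apply_apply K (x : K)
    let σ : E ≃ₐ[ℚ] E := AlgEquiv.ofAlgHom s s hs hs
    have hσ : ∀ (φ : E →+* ℂ) (x : E), φ (σ x) = star (φ x) := key
    have h1 : σ ≠ 1 := fun h => hc ((IntermediateField.mem_fixingSubgroup_iff _ _).2 fun x hx =>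
      congrArg Subtype.val (AlgEquiv.ext_iff.1 h ⟨x, hx⟩))
    have h2 : orderOf σ = 2 := orderOf_eq_prime (by
      ext x
      exact IsCMField.complexConj_apply_apply K (x : K)) h1
    have : IsTotallyComplex E := ⟨fun w => InfinitePlace.not_isReal_iff_isComplex.1 fun hw =>
      h1 (AlgEquiv.ext fun x => w.embedding.injective ((hσ _ x).trans
        (RingHom.congr_fun (InfinitePlace.isReal_iff.1 hw) x)))⟩
    have : IsTotallyReal (FixedPoints.subfield (Subgroup.zpowers σ) E) :=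
      isTotallyReal_iff_le_maximalRealSubfield.2 fun x hx φ => by
        rw [← hσ]
        exact congrArg φ (hx ⟨σ, Subgroup.mem_zpowers σ⟩)
    have : Algebra.IsQuadraticExtension (FixedPoints.subfield (Subgroup.zpowers σ) E) E := ⟨by
      have := Fintype.ofFinite (Subgroup.zpowers σ)
      rw [FixedPoints.finrank_eq_card, ← Nat.card_eq_fintype_card, Nat.card_zpowers, h2]⟩
    exact IsCMField.ofCMExtension (FixedPoints.subfield (Subgroup.zpowers σ) E) E

lemma cc_mem [IsCMField K] [IsGalois ℚ K] (E : IntermediateField ℚ K) (x : K) (hx : x ∈ E) :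
    cc K x ∈ E := by
  rw [← IsGalois.fixedField_fixingSubgroup E, IntermediateField.mem_fixedField_iff]
  intro g hg
  rw [← AlgEquiv.mul_apply, Subgroup.mem_center_iff.1 cc_center g, AlgEquiv.mul_apply,
    (IntermediateField.mem_fixingSubgroup_iff _ _).1 hg x hx]

open scoped IsMulCommutative in
lemma abelian_iff' {F L : Type} [Field F] [Field L] [Algebra F L] [FiniteDimensional F L]
    [IsGalois F L] (E : IntermediateField F L) :
    IsAbelianGalois F E ↔ commutator (L ≃ₐ[F] L) ≤ E.fixingSubgroup := by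
  constructor
  · intro h
    rw [← IntermediateField.restrictNormalHom_ker]
    exact Abelianization.commutator_subset_ker _
  · intro h
    have := Subgroup.Normal.of_commutator_le _ h
    have h1 := Subgroup.Normal.quotient_commutative_iff_commutator_le.2 h
    rw [← IsGalois.fixedField_fixingSubgroup E]
    exact { is_comm.comm := fun x y => by
              obtain ⟨x, rfl⟩ := (IsGalois.normalAutEquivQuotient _).surjective x
              obtain ⟨y, rfl⟩ := (IsGalois.normalAutEquivQuotient _).surjective y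
              rw [← map_mul, ← map_mul, mul_comm] }

lemma abelian_iff [IsGalois ℚ K] (E : IntermediateField ℚ K) :
    IsAbelianGalois ℚ E ↔ commutator (K ≃ₐ[ℚ] K) ≤ E.fixingSubgroup :=
  abelian_iff' E

section
variable [IsCMField K] {E : IntermediateField ℚ K}
  {e : (K ≃ₐ[ℚ] K) ⧸ E.fixingSubgroup ≃ (E →ₐ[ℚ] K)} (he : ∀ g x, e (g • x) = act g (e x))
include he

omit [IsCMField K] in
lemma a0_tr (x : (K ≃ₐ[ℚ] K) ⧸ E.fixingSubgroup) (Φ : Set (E →ₐ[ℚ] K)) :
    a0 E (e x) Φ = MP_a2beea_nt.a0 E.fixingSubgroup x (e ⁻¹' Φ) := by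
  ext g
  simp only [a0, MP_a2beea_nt.a0, Set.mem_preimage, he]

lemma type_tr (Φ : Set (E →ₐ[ℚ] K)) :
    IsCMType E Φ ↔ MP_a2beea_nt.IsCMType (cc K) E.fixingSubgroup (e ⁻¹' Φ) := by
  simp only [IsCMType, MP_a2beea_nt.IsCMType, Set.mem_preimage, he, e.surjective.forall]

lemma averaged_tr : averaged E = MP_a2beea_nt.averaged (cc K) E.fixingSubgroup := by
  refine finsum_mem_eq_of_bijOn (fun Φ => e ⁻¹' Φ) ⟨fun Φ h => (type_tr he Φ).1 h,
    (e.surjective.preimage_injective).injOn, fun Ψ h => ⟨e '' Ψ, ?_, e.preimage_image Ψ⟩⟩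
    fun Φ _ => ?_
  · exact (type_tr he _).2 (by rwa [e.preimage_image])
  · exact (finsum_mem_eq_of_bijOn e (e.bijective.bijOn_preimage) fun x _ =>
      (a0_tr he x Φ).symm).symm

end

lemma known_eq [IsCMField K] [IsGalois ℚ K] : known K = MP_a2beea_nt.known (cc K) := by
  have sur : ∀ H : Subgroup (K ≃ₐ[ℚ] K), ∃ E : IntermediateField ℚ K, E.fixingSubgroup = H :=
    fun H => ⟨_, fixingSubgroup_fixedField H⟩
  unfold known MP_a2beea_nt.known
  congr 2 <;> ext f
  · constructor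
    · rintro ⟨E, h1, rfl⟩
      obtain ⟨e, he⟩ := exists_equiv E
      exact ⟨_, (isCM_iff E (cc_mem E)).1 h1, averaged_tr he⟩
    · rintro ⟨H, h1, rfl⟩
      obtain ⟨E, rfl⟩ := sur H
      obtain ⟨e, he⟩ := exists_equiv E
      exact ⟨E, (isCM_iff E (cc_mem E)).2 h1, (averaged_tr he).symm⟩
  · constructor
    · rintro ⟨E, ψ, Φ, h1, h2, rfl⟩
      obtain ⟨e, he⟩ := exists_equiv E
      obtain ⟨x, rfl⟩ := e.surjective ψ
      exact ⟨_, x, _, (abelian_iff E).1 h1, (type_tr he Φ).1 h2, a0_tr he x Φ⟩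
    · rintro ⟨H, x, Ψ, h1, h2, rfl⟩
      obtain ⟨E, rfl⟩ := sur H
      obtain ⟨e, he⟩ := exists_equiv E
      refine ⟨E, e x, e '' Ψ, (abelian_iff E).2 h1, (type_tr he _).2 (by rwa [e.preimage_image]),
        ?_⟩
      rw [a0_tr he, e.preimage_image]

theorem main [IsCMField K] [IsGalois ℚ K] (E : IntermediateField ℚ K) (ψ : E →ₐ[ℚ] K)
    (Φ : Set (E →ₐ[ℚ] K)) (hΦ : IsCMType E Φ) :
    a0 E ψ Φ ∈ Submodule.span ℚ (known K) ↔
      ∀ g h : K ≃ₐ[ℚ] K, Subgroup.zpowers g = Subgroup.zpowers h →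
        a0 E ψ Φ g - abPart (a0 E ψ Φ) g = a0 E ψ Φ h - abPart (a0 E ψ Φ) h := by
  obtain ⟨e, he⟩ := exists_equiv E
  obtain ⟨x, rfl⟩ := e.surjective ψ
  rw [known_eq, a0_tr he]
  exact MP_a2beea_nt.main cc_center cc_sq _ x _ ((type_tr he Φ).1 hΦ)

end Pool.Agent.P.MP_a2beea_nt.F
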