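import Pool.Agent.P.MP_a2beea_nt.Avg

/-!
The span of the known class functions, by Artin induction.
-/

namespace Pool.Agent.P.MP_a2beea_nt

open Classical Finset Subgroup

variable {G : Type} [Group G] [Fintype G] {c : G}

/-- The average over cosets of the commutator subgroup, as a linear map. -/
noncomputable def Pr : (G → ℚ) →ₗ[ℚ] (G → ℚ) where
  toFun f g := (∑ y : G, if (y : G ⧸ commutator G) = g then f y else 0) / Nat.card (commutator G)
  map_add' f f' := by
    ext g
    simp only [Pi.add_apply, ← add_div, ← sum_add_distrib]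
    congr 2
    ext y
    split_ifs <;> simp
  map_smul' a f := by
    ext g
    simp only [Pi.smul_apply, smul_eq_mul, RingHom.id_apply, ← mul_div_assoc, mul_sum]
    congr 2
    ext y
    split_ifs <;> simp

lemma Pr_apply (f : G → ℚ) (g : G) : Pr f g =
    (∑ y : G, if (y : G ⧸ commutator G) = g then f y else 0) / Nat.card (commutator G) := rfl

lemma Pr_apply' (f : G → ℚ) (g : G) : Pr f g =
    (∑ x, if x ∈ commutator G then f (g * x) else 0) / Nat.card (commutator G) := by
  rw [Pr_apply, ← Equiv.sum_comp (Equiv.mulLeft g)]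
  congr 2
  ext x
  simp only [Equiv.coe_mulLeft, eq_comm (b := (g : G ⧸ commutator G)), QuotientGroup.eq,
    inv_mul_cancel_left]

lemma abPart_eq (f : G → ℚ) : abPart f = Pr f := by
  ext g
  rw [Pr_apply', abPart, ← sum_filter]
  congr 1
  exact finsum_mem_eq_sum_of_inter_support_eq _ (by ext; simp)

lemma Pr_congr (f : G → ℚ) {g h : G} (e : (g : G ⧸ commutator G) = h) : Pr f g = Pr f h := by
  rw [Pr_apply, Pr_apply, e]

lemma Pr_eq {f : G → ℚ} (hf : ∀ g, ∀ x ∈ commutator G, f (g * x) = f g) : Pr f = f := by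
  ext g
  have h0 : (Nat.card (commutator G) : ℚ) ≠ 0 := Nat.cast_ne_zero.2 Nat.card_pos.ne'
  rw [Pr_apply', div_eq_iff h0, ← sum_filter, sum_congr rfl fun x hx => hf g x (mem_filter.1 hx).2,
    sum_const, nsmul_eq_mul, mul_comm, Nat.card_eq_fintype_card, Fintype.card_subtype]

lemma Pr_shift (f : G → ℚ) (g : G) : Pr (fun g => f (c * g)) g = Pr f (c * g) := by
  simp only [Pr_apply', mul_assoc]

omit [Fintype G] in
lemma mk_conj (g t : G) : ((t⁻¹ * g * t : G) : G ⧸ commutator G) = g := by
  rw [QuotientGroup.eq]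
  have := commutator_mem_commutator (mem_top t⁻¹) (mem_top g⁻¹)
  rw [commutatorElement_def] at this
  simpa [mul_assoc, commutator_def] using this

lemma exists_pow {g h : G} (e : zpowers g = zpowers h) :
    ∃ k : ℕ, (Nat.card G).Coprime k ∧ h = g ^ k := by
  obtain ⟨j, rfl⟩ := (mem_powers_iff_mem_zpowers).2 (e ▸ mem_zpowers h)
  have h1 : j.Coprime (orderOf g) := mem_zpowers_pow_iff.1 (e ▸ mem_zpowers g)
  obtain ⟨p, h2, h3, h4⟩ := Nat.forall_exists_prime_gt_and_modEq (Nat.card G)
    (orderOf_pos g).ne' h1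
  exact ⟨p, (Nat.coprime_of_lt_prime Nat.card_pos.ne' h2 h3).symm, (pow_eq_pow_iff_modEq.2 h4).symm⟩

omit [Fintype G] in
lemma pow_mem_iff' {k : ℕ} (hk : (Nat.card G).Coprime k) (H : Subgroup G) (x : G) :
    x ^ k ∈ H ↔ x ∈ H :=
  ⟨fun h => zpowers_le.2 h (mem_zpowers_pow_iff.2
    (Nat.Coprime.coprime_dvd_left (orderOf_dvd_natCard x) hk).symm), fun h => H.pow_mem h k⟩

lemma Pr_pow {k : ℕ} (hk : (Nat.card G).Coprime k) {f : G → ℚ} (hf : ∀ g, f (g ^ k) = f g)
    (g : G) : Pr f (g ^ k) = Pr f g := by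
  rw [Pr_apply, Pr_apply, ← Equiv.sum_comp (powCoprime hk)]
  congr 2
  ext y
  have h1 := (powCoprime (Nat.Coprime.coprime_dvd_left
    (card_quotient_dvd_card (commutator G)) hk)).injective.eq_iff
    (a := (y : G ⧸ commutator G)) (b := g)
  simp only [powCoprime_apply] at h1 ⊢
  simp only [QuotientGroup.mk_pow, h1, hf]

lemma Av_pow {k : ℕ} {f : G → ℚ} (hf : ∀ g, f (g ^ k) = f g) (g : G) :
    Av f (g ^ k) = Av f g := by
  rw [Av_apply, Av_apply]
  congr 2
  ext η
  rw [← hf (η⁻¹ * g * η)]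
  simpa using congrArg f (conj_pow (a := η⁻¹) (b := g) (i := k)).symm

/-- Artin induction for functions. -/
lemma artin (W : Submodule ℚ (G → ℚ)) (hW : ∀ H : Subgroup G, ind H ∈ W) {r : G → ℚ}
    (hr : ∀ g h, zpowers g = zpowers h → r g = r h) : r ∈ W := by
  let θ : Subgroup G → G → ℚ := fun C g => if zpowers g = C then 1 else 0
  have h1 : ∀ C, θ C ∈ W := by
    intro C
    induction C using WellFoundedLT.induction with
    | ind C ih =>
      have e : θ C = ind C - ∑ D with D < C, θ D := by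
        ext g
        simp only [θ, ind, Pi.sub_apply, Finset.sum_apply, sum_ite_eq, mem_filter, mem_univ,
          true_and, ← zpowers_le, le_iff_lt_or_eq (a := zpowers g)]
        by_cases a1 : zpowers g = C
        · simp [a1]
        · simp [a1]
      rw [e]
      exact sub_mem (hW C) (Submodule.sum_mem _ fun D hD => ih D (mem_filter.1 hD).2)
  let v : Subgroup G → ℚ := fun C => if h : ∃ g, zpowers g = C then r h.choose else 0
  have e : r = ∑ C, v C • θ C := by
    ext g
    have h2 : ∃ g', zpowers g' = zpowers g := ⟨g, rfl⟩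
    simp only [θ, Finset.sum_apply, Pi.smul_apply, smul_eq_mul, mul_ite, mul_one, mul_zero,
      sum_ite_eq, mem_univ, if_true, v, dif_pos h2]
    exact hr _ _ h2.choose_spec.symm
  rw [e]
  exact Submodule.sum_mem _ fun C _ => W.smul_mem _ (h1 C)

omit [Fintype G] in
lemma one_mem_known : (1 : G → ℚ) ∈ Submodule.span ℚ (known c) :=
  Submodule.subset_span (Or.inl (Or.inl rfl))

lemma odd_ind_mem (hc : c ∈ center G) (hc2 : c * c = 1) (H : Subgroup G) :
    (Av (ind H) - Av fun g => ind H (c * g)) ∈ Submodule.span ℚ (known c) := by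
  by_cases hH : c ∈ H
  · have e : (fun g => ind H (c * g)) = ind H := by
      ext g
      simp only [ind, H.mul_mem_cancel_left hH]
    rw [e, sub_self]
    exact zero_mem _
  · have h1 : averaged c H ∈ Submodule.span ℚ (known c) :=
      Submodule.subset_span (Or.inl (Or.inr ⟨H, hH, rfl⟩))
    obtain ⟨Φ, hΦ⟩ := exists_type hc hc2 hH
    have h2 : 0 < #{Φ | IsCMType c H Φ} := card_pos.2 ⟨Φ, mem_filter.2 ⟨mem_univ _, hΦ⟩⟩
    rw [averaged_eq hc hc2 hH, Submodule.smul_mem_iff _ (by
      have := Fintype.card_pos (α := G ⧸ H)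
      positivity), add_sub_assoc] at h1
    exact (Submodule.add_mem_iff_right _ one_mem_known).1 h1

omit [Fintype G] in
lemma smul_ab {H : Subgroup G} (hH : commutator G ≤ H) {x : G} (hx : x ∈ commutator G)
    (ψ : G ⧸ H) : x • ψ = ψ := by
  obtain ⟨t, rfl⟩ := QuotientGroup.mk_surjective ψ
  rw [MulAction.Quotient.smul_mk, eq_comm, QuotientGroup.eq, smul_eq_mul, ← mul_assoc]
  exact hH ((inferInstance : (commutator G).Normal).conj_mem' x hx t)

lemma ab_mem (hc : c ∈ center G) (hc2 : c * c = 1) {q : G → ℚ}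
    (h1 : ∀ g h : G, (g : G ⧸ commutator G) = h → q g = q h) (h2 : ∀ g, q (c * g) = -q g) :
    q ∈ Submodule.span ℚ (known c) := by
  by_cases hH : c ∈ commutator G
  · have e : q = 0 := by
      ext g
      have h3 := h1 (c * g) g (by
        rw [← mem_center_iff.1 hc g, eq_comm, QuotientGroup.eq, inv_mul_cancel_left]; exact hH)
      rw [Pi.zero_apply]
      linarith [h2 g]
    rw [e]
    exact zero_mem _
  obtain ⟨Φ, hΦ⟩ := exists_type hc hc2 hH
  have h3 : ∀ Ψ, IsCMType c (commutator G) Ψ →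
      (fun g : G => sgn Ψ (g : G ⧸ commutator G)) ∈ Submodule.span ℚ (known c) := by
    intro Ψ hΨ
    have h4 : a0 (commutator G) (1 : G) Ψ ∈ Submodule.span ℚ (known c) :=
      Submodule.subset_span (Or.inr ⟨_, _, Ψ, le_rfl, hΨ, rfl⟩)
    rw [a0_eq, Av_class (fun g t => by
      simp only [MulAction.Quotient.smul_mk, smul_eq_mul, mul_one, mk_conj])] at h4
    refine (congrArg (· ∈ _) ?_).mp (sub_mem (Submodule.smul_mem _ (2 : ℚ) h4) one_mem_known)
    ext g
    simp only [MulAction.Quotient.smul_mk, smul_eq_mul, mul_one, Pi.sub_apply, Pi.smul_apply,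
      ind_eq, Pi.one_apply]
    ring
  have e : q = ∑ y : G ⧸ commutator G, (q y.out * sgn Φ y / 4) •
      ((fun g : G => sgn Φ (g : G ⧸ commutator G)) -
        fun g : G => sgn (flip c y Φ) (g : G ⧸ commutator G)) := by
    ext g
    have a1 := smul_ne hc hH (g : G ⧸ commutator G)
    have a2 : ∀ y : G ⧸ commutator G, (q y.out * sgn Φ y / 4) *
        (sgn Φ (g : G ⧸ commutator G) - sgn (flip c y Φ) (g : G ⧸ commutator G)) =
        (if y = g then q g / 2 else 0) + if y = c • (g : G ⧸ commutator G) then q g / 2 else 0 := by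
      intro y
      rw [sgn_flip]
      by_cases b1 : y = g
      · rw [if_pos (Or.inl b1.symm), if_pos b1, if_neg (b1 ▸ a1.symm), h1 y.out g (by simp [b1]),
          b1]
        linear_combination (q g / 2) * sgn_sq Φ (g : G ⧸ commutator G)
      by_cases b2 : y = c • (g : G ⧸ commutator G)
      · rw [if_pos (Or.inr (by rw [b2, smul_smul, hc2, one_smul])), if_neg b1, if_pos b2,
          h1 y.out (c * g) (by simp [b2]), h2, b2, sgn_c hΦ]
        linear_combination (q g / 2) * sgn_sq Φ (g : G ⧸ commutator G)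
      · rw [if_neg b1, if_neg b2, if_neg, sub_self, mul_zero, add_zero]
        rintro (h | h)
        · exact b1 h.symm
        · exact b2 (by rw [h, smul_smul, hc2, one_smul])
    simp only [Finset.sum_apply, Pi.smul_apply, Pi.sub_apply, smul_eq_mul, a2, sum_add_distrib,
      sum_ite_eq', mem_univ, if_true, add_halves]
  rw [e]
  exact Submodule.sum_mem _ fun y _ =>
    Submodule.smul_mem _ _ (sub_mem (h3 Φ hΦ) (h3 _ (hΦ.flip hc2 y)))

lemma a0_c (hc : c ∈ center G) {H : Subgroup G} (ψ : G ⧸ H) {Φ : Set (G ⧸ H)}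
    (hΦ : IsCMType c H Φ) : (fun g => a0 H ψ Φ (c * g)) = 1 - a0 H ψ Φ := by
  rw [a0_eq, ← funext (Av_center hc _), ← Av_one, ← map_sub]
  congr 1
  ext g
  simp only [mul_smul, ind_eq, sgn_c hΦ, Pi.sub_apply, Pi.one_apply]
  ring

theorem main (hc : c ∈ center G) (hc2 : c * c = 1) (H : Subgroup G) (ψ : G ⧸ H)
    (Φ : Set (G ⧸ H)) (hΦ : IsCMType c H Φ) :
    a0 H ψ Φ ∈ Submodule.span ℚ (known c) ↔ ∀ g h : G, zpowers g = zpowers h →
      a0 H ψ Φ g - abPart (a0 H ψ Φ) g = a0 H ψ Φ h - abPart (a0 H ψ Φ) h := by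
  rw [abPart_eq]
  constructor
  · intro hf g h e
    obtain ⟨k, hk, rfl⟩ := exists_pow e
    have hc1 : c ≠ 1 := by
      rintro rfl
      simpa using hΦ ψ
    have hodd : Odd k := Nat.coprime_two_left.1 (Nat.Coprime.coprime_dvd_left
      (orderOf_eq_prime (by rw [sq, hc2]) hc1 ▸ orderOf_dvd_natCard c) hk)
    have hck : ∀ g : G, c * g ^ k = (c * g) ^ k := fun g => by
      obtain ⟨m, rfl⟩ := hodd
      rw [(show Commute c g from (mem_center_iff.1 hc g).symm).mul_pow, pow_succ c, pow_mul, sq,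
        hc2, one_pow, one_mul]
    generalize a0 H ψ Φ = f at hf
    induction hf using Submodule.span_induction with
    | mem f hf =>
      rcases hf with (rfl | ⟨H', h1, rfl⟩) | ⟨H', ψ', Φ', h1, -, rfl⟩
      · rw [Pr_eq fun _ _ _ => rfl, sub_self, sub_self]
      · have h2 : ∀ g, averaged c H' (g ^ k) = averaged c H' g := fun g => by
          simp only [averaged_eq hc hc2 h1, Pi.smul_apply, Pi.sub_apply, Pi.add_apply,
            Pi.one_apply]
          rw [Av_pow (fun g => by simp only [ind, pow_mem_iff' hk]),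
            Av_pow (fun g => by simp only [ind, hck, pow_mem_iff' hk])]
        rw [h2, Pr_pow hk h2]
      · rw [Pr_eq, sub_self, sub_self]
        intro g x hx
        rw [a0_eq, Av_apply, Av_apply]
        congr 2
        ext η
        rw [show η⁻¹ * (g * x) * η = η⁻¹ * g * η * (η⁻¹ * x * η) by group, mul_smul,
          smul_ab h1 ((inferInstance : (commutator G).Normal).conj_mem' x hx η)]
    | zero => simp
    | add f f' _ _ h1 h2 =>
      simp only [map_add, Pi.add_apply]
      linarith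
    | smul a f _ h1 =>
      simp only [map_smul, Pi.smul_apply, smul_eq_mul, ← mul_sub, h1]
  · intro hf
    have h1 := a0_c hc ψ hΦ
    have h2 : ∀ g t, a0 H ψ Φ (t⁻¹ * g * t) = a0 H ψ Φ g := fun g t => by rw [a0_eq, Av_conj]
    generalize a0 H ψ Φ = f at hf h1 h2
    have h3 : ∀ g, Pr f (c * g) = 1 - Pr f g := fun g => by
      rw [← Pr_shift, h1, map_sub, Pr_eq (f := 1) fun _ _ _ => rfl]; rfl
    have h4 : Pr f - (1 / 2 : ℚ) • (1 : G → ℚ) ∈ Submodule.span ℚ (known c) :=
      ab_mem hc hc2 (fun g h e => by simp only [Pi.sub_apply, Pr_congr f e]; rfl) fun g => by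
        simp only [Pi.sub_apply, h3, Pi.smul_apply, Pi.one_apply, smul_eq_mul]; ring
    have h5 := artin ((Submodule.span ℚ (known c)).comap
      (Av - Av.comp (LinearMap.funLeft ℚ ℚ fun g => c * g))) (odd_ind_mem hc hc2)
      (r := f - Pr f) hf
    have h6 : LinearMap.funLeft ℚ ℚ (fun g => c * g) (f - Pr f) = -(f - Pr f) := by
      ext g
      have := congrFun h1 g
      simp only [LinearMap.funLeft_apply, Pi.sub_apply, Pi.neg_apply, h3, Pi.one_apply] at this ⊢
      linarith
    rw [Submodule.mem_comap, LinearMap.sub_apply, LinearMap.comp_apply, h6, map_neg,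
      Av_class (fun g t => by simp only [Pi.sub_apply, h2, Pr_congr f (mk_conj g t)]),
      sub_neg_eq_add, ← two_smul ℚ, Submodule.smul_mem_iff _ two_ne_zero] at h5
    have h7 := add_mem (add_mem h5 h4) (Submodule.smul_mem _ (1 / 2 : ℚ) one_mem_known)
    simpa using h7

end Pool.Agent.P.MP_a2beea_nt
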